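import Mathlib

namespace Pool.Agent.H.MP_0bba66_co
open Finset

/-- semiintersecting families on the ground set `A ∪ B`, two disjoint copies of `Fin N` -/
def Semi (k N : ℕ) (F : Finset (Finset (Fin N ⊕ Fin N))) : Prop :=
  (∀ S ∈ F, #S.toLeft = k ∧ #S.toRight = k) ∧
    ∀ S ∈ F, ∀ T ∈ F, S ≠ T →
      Xor (S.toLeft ∩ T.toLeft).Nonempty (S.toRight ∩ T.toRight).Nonempty

open Classical in
/-- the largest cardinality of a semiintersecting family -/
noncomputable def f (k N : ℕ) : ℕ := (univ.filter (Semi k N)).sup card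

end Pool.Agent.H.MP_0bba66_co
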