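import Pool.Agent.H.MP_0bba66_co.Loc

namespace Pool.Agent.H.MP_0bba66_co
open Finset

lemma lexmax {n : ℕ} (e : Fin n → Fin n → Prop) (hs : ∀ x y, e x y ↔ e y x) :
    ∃ σ : Equiv.Perm (Fin n), ∀ x y k, x < y → k ≠ x → k ≠ y →
      (∀ l < k, l ≠ x → l ≠ y → (e (σ x) (σ l) ↔ e (σ y) (σ l))) →
      e (σ y) (σ k) → e (σ x) (σ k) := by
  classical
  let w : Equiv.Perm (Fin n) → Lex (Fin n ×ₗ Fin n → Prop) := fun σ =>
    toLex fun q => (ofLex q).1 ≠ (ofLex q).2 ∧ e (σ (ofLex q).1) (σ (ofLex q).2)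
  obtain ⟨σ, -, hσ⟩ := exists_max_image univ w univ_nonempty
  refine ⟨σ, fun x y k h1 h2 h3 h4 h5 => ?_⟩
  by_contra h6
  refine (hσ (σ * Equiv.swap x y) (mem_univ _)).not_gt ?_
  have row : ∀ r c, r < k → r < x →
      ((r ≠ c ∧ e (σ r) (σ c)) = (r ≠ c ∧ e (σ (Equiv.swap x y r)) (σ (Equiv.swap x y c)))) := by
    intro r c g1 g2
    have := h4 r g1 g2.ne (g2.trans h1).ne
    rw [Equiv.swap_apply_of_ne_of_ne g2.ne (g2.trans h1).ne, Equiv.swap_apply_def]
    split_ifs with k1 k2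
    · rw [k1, hs (σ r), hs (σ r), this]
    · rw [k2, hs (σ r), hs (σ r), this]
    · rfl
  rcases lt_or_gt_of_ne h2 with h | h
  · refine ⟨toLex (k, x), fun q hq => ?_, ?_⟩
    · rcases (Prod.Lex.lt_iff).1 hq with g | ⟨g1, g2⟩
      · exact row _ _ g (lt_trans g h)
      · have g1 : (ofLex q).1 = k := g1
        have g2 : (ofLex q).2 < x := g2
        simp only [w, Pi.toLex_apply, Equiv.Perm.mul_apply, g1]
        rw [Equiv.swap_apply_of_ne_of_ne h2 h3, Equiv.swap_apply_of_ne_of_ne g2.ne (g2.trans h1).ne]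
    · simp only [w, Pi.toLex_apply, Equiv.Perm.mul_apply, ofLex_toLex, Equiv.swap_apply_left,
        Equiv.swap_apply_of_ne_of_ne h2 h3, hs (σ k)]
      simp [h5, h6, h2, Prop.bot_eq_false ▸ Prop.top_eq_true ▸ (bot_lt_top (α := Prop))]
  · refine ⟨toLex (x, k), fun q hq => ?_, ?_⟩
    · rcases (Prod.Lex.lt_iff).1 hq with g | ⟨g1, g2⟩
      · exact row _ _ (lt_trans g h) g
      · have g1 : (ofLex q).1 = x := g1
        have g2 : (ofLex q).2 < k := g2
        simp only [w, Pi.toLex_apply, Equiv.Perm.mul_apply, g1, Equiv.swap_apply_left]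
        generalize (ofLex q).2 = c at g2
        by_cases k1 : c = x
        · simp [k1]
        by_cases k2 : c = y
        · rw [k2, Equiv.swap_apply_right, hs]
        · rw [Equiv.swap_apply_of_ne_of_ne k1 k2, h4 c g2 k1 k2]
    · simp only [w, Pi.toLex_apply, Equiv.Perm.mul_apply, ofLex_toLex, Equiv.swap_apply_left,
        Equiv.swap_apply_of_ne_of_ne h2 h3]
      simp [h5, h6, h2.symm, Prop.bot_eq_false ▸ Prop.top_eq_true ▸ (bot_lt_top (α := Prop))]

end Pool.Agent.H.MP_0bba66_co
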