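import Pool.Agent.Lib.helper3.Rup

namespace Pool.Agent.H.MP_0bba66_co
open Pool.Agent.Lib.helper3.Rup

def enc (m : ℕ) : ℕ := 0xa4000000000000000000000000000000000000000000000000000000000000000000000000000000000000000000000000000000000000000000000000000000a300000000000000000000000000000000000000000000000000000000000000a00000000000000000000000000000009a000000000000009000000081006c502c000000000000000000000000000000000000000000000000000000000000000000000000000000000000000000000000000000000000000000000000000000a2000000000000000000000000000000000000000000000000000000000000009f00000000000000000000000000000099000000000000008f00000080006b4f2b000000000000000000000000000000000000000000000000000000000000009d00000000000000000000000000000097000000000000008d0000007e00694d2900000000000000000000000000000094000000000000008a0000007b00664a260000000000000086000000770062462200000072005d411d00573b17341008ae000000000000000000000000000000000000000000000000000000000000000000000000000000000000000000000000000000000000000000000000000000a1000000000000000000000000000000000000000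000000000000000000000009e00000000000000000000000000000098000000000000008e0000007f006a4e2a000000000000000000000000000000000000000000000000000000000000009c00000000000000000000000000000096000000000000008c0000007d00684c280000000000000000000000000000009300000000000000890000007a006549250000000000000085000000760061452100000071005c401c00563a16330f07ad000000000000000000000000000000000000000000000000000000000000009b00000000000000000000000000000095000000000000008b0000007c00674b2700000000000000000000000000000092000000000000008800000079006448240000000000000084000000750060442000000070005b3f1b00553915320e06ac0000000000000000000000000000009100000000000000870000007800634723000000000000008300000074005f431f0000006f005a3e1a00543814310d05ab000000000000008200000073005e421e0000006e00593d1900533713300c04aa0000006d00583c18005236122f0b03a9005135112e0a02a82d0901a700a6a500 / 256 ^ m % 256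

def dcd (k : ℕ) : ℕ := 0x2004008010020040080100200780d02c070320a81a09816038310a419094150342304c0b01c308a218892148322284a0a81a2184609816038c128461244510c4891242906485114250540d20c4308c1302c07302a09829094230a22488a218a1244892148328290a2284a0a81a81906218460981603b01a05819054130621484a118611444911443182509224490a4198150521445094150360340c8310c2304c0b01f00a01809014030220480a018210440901403082108220480a0188110421044090140320240882108220480a01a0140481104210440901403 / 1024 ^ k % 1024

def ix (c : Bool) (x y z : Fin 10) : ℕ :=
  enc (2 ^ x.val ||| 2 ^ y.val ||| 2 ^ z.val) + if c then 175 else 0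

variable {X : Type} (a : Bool → Fin 10 → Set X)

def val (k : ℕ) : Prop :=
  ∃ p, ∀ i : Fin 10, (dcd (k % 175)).testBit i = true → p ∈ a (decide (175 ≤ k)) i

def Q (c : Bool) (x y z : Fin 10) : Prop := ∃ p, p ∈ a c x ∧ p ∈ a c y ∧ p ∈ a c z

lemma tb : ∀ (c : Bool) (x y z : Fin 10), decide (175 ≤ ix c x y z) = c ∧
    ∀ i : Fin 10, ((dcd (ix c x y z % 175)).testBit i = true ↔ (i = x ∨ i = y ∨ i = z)) := by
  decide +kernel

lemma val_ix (c : Bool) (x y z : Fin 10) : val a (ix c x y z) ↔ Q a c x y z := by
  simp [val, Q, (tb c x y z).1, (tb c x y z).2]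

def P (c : Bool) (x y z : Fin 10) : ℕ := 2 * ix c x y z + 2
def N (c : Bool) (x y z : Fin 10) : ℕ := 2 * ix c x y z + 3
def ne (c : Bool) (x y : Fin 10) : ℕ := if c then P false x y y else N false x y y

lemma WP (c : Bool) (x y z : Fin 10) : W (val a) (P c x y z) ↔ Q a c x y z := by
  rw [P, W_pos, val_ix]

lemma WN (c : Bool) (x y z : Fin 10) : W (val a) (N c x y z) ↔ ¬ Q a c x y z := by
  rw [N, W_neg, val_ix]

structure Loc : Prop where
  X : ∀ x y, x ≠ y → (Q a true x y y ↔ ¬ Q a false x y y)
  T : ∀ c x y, x ≠ y → Q a c x y y → ∃ z, z ≠ x ∧ z ≠ y ∧ Q a c x y z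
  K : ∀ c x y z w, x < y → y < z → z < w → Q a c x y y → Q a c x z z → Q a c x w w →
    Q a c y z z → Q a c y w w → ¬ Q a c z w w
  S : ∀ c x y z, ∃ u v w, u < v ∧ v < w ∧ u ∉ [x, y, z] ∧ v ∉ [x, y, z] ∧ w ∉ [x, y, z] ∧
    Q a c u v w
  L : ∀ x y k, x < y → k ≠ x → k ≠ y →
    (∀ l < k, l ≠ x → l ≠ y → (Q a false x l l ↔ Q a false y l l)) →
    Q a false y k k → Q a false x k k

variable {a}

lemma We (h : Loc a) (c : Bool) {x y : Fin 10} (g : x ≠ y) :
    W (val a) (ne c x y) ↔ ¬ Q a c x y y := by
  cases c <;> simp [ne, WP, WN, h.X x y g]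

lemma Wf (h : Loc a) (c : Bool) {x y : Fin 10} (g : x ≠ y) :
    W (val a) (ne (!c) x y) ↔ Q a c x y y := by
  cases c <;> simp [ne, WP, WN, h.X x y g]

def gen' (ty : ℕ) (c : Bool) (x y z w : Fin 10) (r : ℕ) : ℕ :=
  if ty = 0 then (if x ≠ y then cl [N c x y z, ne (!c) x y] else 1)
  else if ty = 1 then (if x ≠ y then cl (ne c x y ::
    ((List.finRange 10).filter fun u => u ≠ x ∧ u ≠ y).map fun u => P c x y u) else 1)
  else if ty = 2 then (if x < y ∧ y < z ∧ z < w then
    cl [ne c x y, ne c x z, ne c x w, ne c y z, ne c y w, ne c z w] else 1)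
  else if ty = 3 then
    (fun l : List (Fin 10) => cl (l.flatMap fun u => (l.filter (u < ·)).flatMap fun v =>
      (l.filter (v < ·)).map fun w => P c u v w)) ((List.finRange 10).filter (· ∉ [x, y, z]))
  else if x < y ∧ z ≠ x ∧ z ≠ y then cl (P false x z z :: N false y z z ::
    ((List.finRange 10).filter fun l => l < z ∧ l ≠ x ∧ l ≠ y).flatMap fun l : Fin 10 =>
      [ne (r.testBit l) x l, ne (r.testBit l) y l]) else 1

def gen (p : ℕ) : ℕ :=
  gen' (p % 5) (decide (p / 5 % 2 = 1)) (Fin.ofNat 10 (p / 10)) (Fin.ofNat 10 (p / 100))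
    (Fin.ofNat 10 (p / 1000)) (Fin.ofNat 10 (p / 10000)) (p / 100000)

theorem gen_ok (h : Loc a) (p : ℕ) : S (W (val a)) (gen p) := by
  unfold gen
  generalize p % 5 = ty, decide (p / 5 % 2 = 1) = c, Fin.ofNat 10 (p / 10) = x,
    Fin.ofNat 10 (p / 100) = y, Fin.ofNat 10 (p / 1000) = z, Fin.ofNat 10 (p / 10000) = w,
    p / 100000 = r
  unfold gen'
  split_ifs with h1 h2 h1 h2 h1 h2 h1 h2 <;> try exact S_one _
  all_goals rw [S_cl]
  · simp only [List.mem_cons, List.not_mem_nil, or_false, exists_eq_or_imp, exists_eq_left, WN,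
      Wf h c h2]
    exact or_iff_not_imp_left.2 fun g => (not_not.1 g).imp fun p g => ⟨g.1, g.2.1, g.2.1⟩
  · by_cases g : Q a c x y y
    · obtain ⟨u, g1, g2, g3⟩ := h.T c x y h2 g
      exact ⟨_, List.mem_cons_of_mem _ (List.mem_map.2 ⟨u, by simp [g1, g2], rfl⟩),
        (WP a c x y u).2 g3⟩
    · exact ⟨_, List.mem_cons_self, (We h c h2).2 g⟩
  · obtain ⟨g1, g2, g3⟩ := h2
    have := h.K c x y z w g1 g2 g3
    simp only [List.mem_cons, List.not_mem_nil, or_false, exists_eq_or_imp, exists_eq_left,
      We h c g1.ne, We h c g2.ne, We h c g3.ne, We h c (g1.trans g2).ne, We h c (g2.trans g3).ne,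
      We h c ((g1.trans g2).trans g3).ne]
    tauto
  · obtain ⟨u, v, t, g1, g2, g3, g4, g5, g6⟩ := h.S c x y z
    refine ⟨_, ?_, (WP a c u v t).2 g6⟩
    simp only [List.mem_flatMap, List.mem_map, List.mem_filter, List.mem_finRange, true_and,
      decide_eq_true_eq]
    exact ⟨u, g3, v, ⟨g4, g1⟩, t, ⟨g5, g2⟩, rfl⟩
  · obtain ⟨g1, g2, g3⟩ := h2
    by_contra hc
    push Not at hc
    refine hc _ List.mem_cons_self ((WP a _ _ _ _).2 (h.L x y z g1 g2 g3 (fun l k1 k2 k3 => ?_) ?_))
    · have m : ∀ t ∈ [ne (r.testBit l) x l, ne (r.testBit l) y l], ¬ W (val a) t := fun t ht =>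
        hc t (List.mem_cons_of_mem _ (List.mem_cons_of_mem _
          (List.mem_flatMap.2 ⟨l, by simp [k1, k2, k3], ht⟩)))
      have m1 := m _ List.mem_cons_self
      have m2 := m _ (List.mem_cons_of_mem _ List.mem_cons_self)
      revert m1 m2
      cases r.testBit l <;> simp only [ne, WP, WN, if_true, Bool.false_eq_true, if_false] <;> tauto
    · simpa [WN] using hc _ (List.mem_cons_of_mem _ List.mem_cons_self)

end Pool.Agent.H.MP_0bba66_co
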