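import Pool.Agent.H.MP_0bba66_co.Defs
import Pool.Agent.H.MP_0bba66_co.Lex
import Pool.Agent.H.MP_0bba66_co.U3

namespace Pool.Agent.H.MP_0bba66_co
open Finset

section
variable {j : ℕ} (hj : 1 ≤ j) (a : Bool → Fin 10 → Finset (Fin (10 * j)))
  (hc : ∀ c i, #(a c i) = 3 * j)
  (hx : ∀ c x y, x ≠ y → ((a c x ∩ a c y).Nonempty ↔ ¬ (a (!c) x ∩ a (!c) y).Nonempty))
include hj hc hx

lemma clique (c : Bool) (s : Finset (Fin 10))
    (h : ∀ x ∈ s, ∀ y ∈ s, x ≠ y → (a c x ∩ a c y).Nonempty) : #s ≤ 3 := by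
  have h1 := card_biUnion (s := s) (t := a (!c)) fun x g1 y g2 g3 =>
    disjoint_iff_inter_eq_empty.2 (not_nonempty_iff_eq_empty.1 ((hx c x y g3).1 (h x g1 y g2 g3)))
  have h2 := card_le_univ (s.biUnion (a (!c)))
  simp only [h1, hc, sum_const, smul_eq_mul, Fintype.card_fin] at h2
  by_contra g
  nlinarith

lemma three (c : Bool) (p : Fin (10 * j)) : #(univ.filter fun i => p ∈ a c i) = 3 := by
  have h1 : ∀ p ∈ (univ : Finset (Fin (10 * j))), #(univ.filter fun i => p ∈ a c i) ≤ 3 :=
    fun p _ => clique hj a hc hx c _ fun x g1 y g2 _ =>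
      ⟨p, mem_inter.2 ⟨(mem_filter.1 g1).2, (mem_filter.1 g2).2⟩⟩
  refine (sum_eq_sum_iff_of_le h1).1 ?_ p (mem_univ _)
  simp only [card_filter]
  rw [sum_comm]
  simp [hc]
  ring

lemma core : False := by
  obtain ⟨σ, hσ⟩ := lexmax (fun x y => (a false x ∩ a false y).Nonempty)
    fun x y => by rw [inter_comm]
  have hq : ∀ c x y, Q (fun c i => (a c (σ i) : Set (Fin (10 * j)))) c x y y ↔
      (a c (σ x) ∩ a c (σ y)).Nonempty := fun c x y => by simp [Q, Finset.Nonempty]
  have hc' : ∀ c i, #(a c (σ i)) = 3 * j := fun c i => hc c _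
  have hx' := fun c x y (h : x ≠ y) => hx c (σ x) (σ y) (σ.injective.ne h)
  refine u (fun c i => (a c (σ i) : Set (Fin (10 * j)))) ⟨fun x y h => ?_, fun c x y h g => ?_,
    fun c x y z w h1 h2 h3 g1 g2 g3 g4 g5 g6 => ?_, fun c x y z => ?_, ?_⟩
  · rw [hq, hq]; exact hx' true x y h
  · obtain ⟨p, g1, g2, -⟩ := g
    have h3 := three hj (fun c i => a c (σ i)) hc' hx' c p
    obtain ⟨z, k1, k2⟩ := exists_mem_notMem_of_card_lt_card
      (show #({x, y} : Finset (Fin 10)) < _ by rw [h3, card_pair h]; norm_num)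
    simp only [mem_insert, mem_singleton, not_or] at k2
    exact ⟨z, k2.1, k2.2, p, g1, g2, (mem_filter.1 k1).2⟩
  · simp only [hq] at g1 g2 g3 g4 g5 g6
    have := clique hj (fun c i => a c (σ i)) hc' hx' c {x, y, z, w} fun s hs t ht hst => by
      simp only [mem_insert, mem_singleton] at hs ht
      rcases hs with rfl | rfl | rfl | rfl <;> rcases ht with rfl | rfl | rfl | rfl <;>
        first | exact absurd rfl hst | assumption | (rw [inter_comm]; assumption)
    rw [card_eq_four.2 ⟨x, y, z, w, by omega, by omega, by omega, by omega, by omega, by omega, rfl⟩]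
      at this
    omega
  · obtain ⟨p, -, hp⟩ := exists_mem_notMem_of_card_lt_card
      (show #(a c (σ x) ∪ (a c (σ y) ∪ a c (σ z))) < #(univ : Finset (Fin (10 * j))) by
        have h1 := card_union_le (a c (σ x)) (a c (σ y) ∪ a c (σ z))
        have h2 := card_union_le (a c (σ y)) (a c (σ z))
        simp only [hc, card_univ, Fintype.card_fin] at h1 h2 ⊢
        omega)
    have h3 := three hj (fun c i => a c (σ i)) hc' hx' c p
    have hm : ∀ i : Fin 3, p ∈ a c (σ (orderEmbOfFin _ h3 i)) := fun i =>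
      (mem_filter.1 (orderEmbOfFin_mem _ h3 i)).2
    have hn : ∀ i : Fin 3, orderEmbOfFin _ h3 i ∉ [x, y, z] := fun i h => by
      have := hm i
      simp only [List.mem_cons, List.not_mem_nil, or_false] at h
      simp only [mem_union, not_or] at hp
      rcases h with h | h | h <;> rw [h] at this <;> tauto
    exact ⟨_, _, _, (orderEmbOfFin _ h3).strictMono (show (0 : Fin 3) < 1 by decide),
      (orderEmbOfFin _ h3).strictMono (show (1 : Fin 3) < 2 by decide), hn 0, hn 1, hn 2,
      p, hm 0, hm 1, hm 2⟩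
  · simpa only [hq] using hσ

end

theorem main (j : ℕ) (hj : 1 ≤ j) : f (3 * j) (10 * j) ≤ 9 := by
  classical
  refine Finset.sup_le fun F hF => ?_
  obtain ⟨h1, h2⟩ := (mem_filter.1 hF).2
  by_contra h
  obtain ⟨m⟩ : Nonempty (Fin 10 ↪ F) := Function.Embedding.nonempty_of_card_le (by simp; omega)
  refine core hj (fun c i => if c then (m i).1.toRight else (m i).1.toLeft) (fun c i => ?_)
    fun c x y g => ?_
  · cases c
    exacts [(h1 _ (m i).2).1, (h1 _ (m i).2).2]
  · have := h2 _ (m x).2 _ (m y).2 (Subtype.val_injective.ne (m.injective.ne g))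
    cases c <;> simp only [Xor, Bool.not_false, Bool.not_true, if_true, Bool.false_eq_true,
      if_false] at this ⊢ <;> tauto

end Pool.Agent.H.MP_0bba66_co
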